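import Pool.Agent.H.MP_6a769b_co.A

namespace Pool.Agent.Results.MP_6a769b_co.Linear

open Finset Filter Asymptotics Pool.Agent.H.MP_6a769b_co

/-- The determinant of `(q - p, r - p)`. -/
def orient (p q r : ℝ × ℝ) : ℝ := (q.1 - p.1) * (r.2 - p.2) - (q.2 - p.2) * (r.1 - p.1)

/-- Same order type. -/
def Equivalent (S S' : Finset (ℝ × ℝ)) : Prop := ∃ φ : S ≃ S', ∀ p q r : S,
  SignType.sign (orient p q r) = SignType.sign (orient (φ p) (φ q) (φ r))

/-- Convex position: no point lies in the convex hull of the others. -/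
def ConvexPos (T : Finset (ℝ × ℝ)) : Prop := ∀ x ∈ T, x ∉ convexHull ℝ ((T : Set (ℝ × ℝ)) \ {x})

noncomputable def DTC (S : Finset (ℝ × ℝ)) : ℕ :=
  sInf {r | ∃ R ⊆ S, R.card = r ∧ ConvexPos (S \ R)}

abbrev Conf (k n : ℕ) := {S : Finset (ℝ × ℝ) // S.card = n ∧ DTC S < k}

abbrev Cls (k n : ℕ) := Quot fun S S' : Conf k n => Equivalent S.1 S'.1

/-- The number of order types of `n`-point configurations with `DTC < k`. -/
noncomputable def c (k n : ℕ) : ℕ := Nat.card (Cls k n)

theorem eqv (k n : ℕ) : Equivalence fun S S' : Conf k n => Equivalent S.1 S'.1 :=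
  ⟨fun _ => ⟨.refl _, fun _ _ _ => rfl⟩, fun ⟨φ, h⟩ => ⟨φ.symm, fun p q r => by simp [h]⟩,
    fun ⟨φ, h⟩ ⟨ψ, g⟩ => ⟨φ.trans ψ, fun p q r => (h p q r).trans (g _ _ _)⟩⟩

theorem rep {k n : ℕ} (hn : 0 < n) (S : Conf k n) :
    ∃ (z : Fin n ≃ S.1) (d : Data n k), Rep (fun i => (z i).1) d := by
  obtain ⟨ε, hε⟩ := ((S.1 ×ˢ S.1).image fun u => (u.1.1 - u.2.1) / (u.2.2 - u.1.2)).exists_notMem
  have inj : Function.Injective fun z : S.1 => z.1.1 + ε * z.1.2 := fun a b e => by
    by_cases h : b.1.2 - a.1.2 = 0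
    · have := sub_eq_zero.1 h
      exact Subtype.ext (Prod.ext (by simpa [this] using e) this.symm)
    · exact absurd (mem_image.2 ⟨(a.1, b.1), mem_product.2 ⟨a.2, b.2⟩, by
        simp only at e ⊢
        rw [div_eq_iff h]; linarith⟩) hε
  obtain ⟨z, hz⟩ : ∃ z : Fin n ≃ S.1, StrictMono fun i => (z i).1.1 + ε * (z i).1.2 := by
    let y := (equivFinOfCardEq S.2.1).symm
    exact ⟨(Tuple.sort fun i => (y i).1.1 + ε * (y i).1.2).trans y,
      (Tuple.monotone_sort fun i => (y i).1.1 + ε * (y i).1.2).strictMono_of_injective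
        ((inj.comp y.injective).comp (Equiv.injective _))⟩
  obtain ⟨R, -, h2, h3⟩ : ∃ R ⊆ S.1, R.card = DTC S.1 ∧ ConvexPos (S.1 \ R) :=
    Nat.sInf_mem (s := {r | ∃ R ⊆ S.1, R.card = r ∧ ConvexPos (S.1 \ R)})
      ⟨_, S.1, Subset.rfl, rfl, by simp [ConvexPos]⟩
  obtain ⟨e⟩ := Function.Embedding.nonempty_of_card_le (α := R) (β := Fin k)
    (by simp [h2, S.2.2.le])
  let r : Fin k → Fin n := Function.extend e
    (fun x => if h : x.1 ∈ S.1 then z.symm ⟨x, h⟩ else ⟨0, hn⟩) fun _ => ⟨0, hn⟩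
  have m : ∀ i ∉ Set.range r, (z i).1 ∈ S.1 \ R := fun i hi => mem_sdiff.2 ⟨(z i).2, fun h =>
    hi ⟨e ⟨_, h⟩, by simp [r, e.injective.extend_apply]⟩⟩
  exact ⟨z, exists_rep _ ε hz r fun j hj h => h3 _ (m j hj) (convexHull_mono (by
    rintro _ ⟨i, ⟨a, b⟩, rfl⟩
    exact ⟨m i a, fun e => b (z.injective (Subtype.ext e))⟩) h)⟩

theorem upper (k : ℕ) : ∃ C : ℕ, ∀ n, 0 < n → Finite (Cls k n) ∧ c k n ≤ C ^ n := by
  refine ⟨2 ^ k * (2 * ((4 + k) * 2 * ((2 ^ 2) ^ ((4 + k) * 2))) ^ k), fun n hn => ?_⟩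
  choose z d h using rep (k := k) hn
  obtain ⟨g, hg⟩ := PM_inj n (Bool × Bool ⊕ Fin k)
  have := Finite.of_injective g hg
  have inj : Function.Injective fun q : Cls k n => d q.out := fun q q' e => by
    have g := h q'.out
    rw [← show d q.out = d q'.out from e] at g
    rw [← q.out_eq, ← q'.out_eq]
    refine Quot.sound ⟨(z _).symm.trans (z _), fun a b c => ?_⟩
    have := (h q.out).eq g ((z _).symm a) ((z _).symm b) ((z _).symm c)
    simp only [Equiv.apply_symm_apply] at this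
    exact this
  refine ⟨.of_injective _ inj, (Nat.card_le_card_of_injective _ inj).trans ?_⟩
  have := Nat.card_le_card_of_injective g hg
  simp only [Nat.card_prod, Nat.card_fun, Nat.card_sum] at this ⊢
  simp only [Nat.card_eq_fintype_card, Fintype.card_fin, Fintype.card_bool,
    Fintype.card_prop] at this ⊢
  rw [mul_pow, mul_pow, pow_right_comm, pow_right_comm _ k, mul_pow, pow_right_comm _ _ n,
    ← pow_mul 2 2]
  exact Nat.mul_le_mul (Nat.pow_le_pow_left Nat.lt_two_pow_self.le _)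
    (Nat.mul_le_mul_left _ (Nat.pow_le_pow_left this _))

theorem lower {k : ℕ} (hk : 2 ≤ k) (m : ℕ) : 2 ^ (m / 2) ≤ c k (m + 1) * (m + 1) := by
  obtain ⟨C, h⟩ := upper k
  have := (h (m + 1) m.succ_pos).1
  let v : (Fin (m / 2) → Bool) → Fin m → ℕ := fun w j =>
    if j.val % 2 = 1 ∧ ∃ t, w t = true ∧ t.val = j / 2 then j - 1 else j
  have hv : ∀ w j, v w j = j ∨ v w j + 1 = j ∧ j.val % 2 = 1 := fun w j => by
    simp only [v]
    split_ifs <;> omega
  let s : (Fin (m / 2) → Bool) → Fin m → ℝ := fun w j =>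
    if j.val % 2 = 0 then v w j + 2 else (v w j + 2 : ℝ)⁻¹
  have si : ∀ w, Function.Injective fun j => (s w j, s w j ^ 2) := fun w i j e => by
    have e := congrArg Prod.fst e
    have := hv w i
    have := hv w j
    have p : ∀ a b : ℕ, (a + 2 : ℝ) ≠ (b + 2 : ℝ)⁻¹ := fun a b =>
      ((inv_lt_one_of_one_lt₀ (by linarith [b.cast_nonneg (α := ℝ)])).trans
        (by linarith [a.cast_nonneg (α := ℝ)])).ne'
    simp only [s] at e
    split_ifs at e
    · simp at e; omega
    · exact absurd e (p _ _)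
    · exact absurd e.symm (p _ _)
    · simp at e; omega
  have so : ∀ w i j, SignType.sign (orient (0, -1) (s w i, s w i ^ 2) (s w j, s w j ^ 2)) = 1 ↔
      i.val < v w j := fun w i j => by
    have e : orient (0, -1) (s w i, s w i ^ 2) (s w j, s w j ^ 2) = s w i * s w j * (1 -
        ((v w i + 2) * (v w j + 2) : ℝ)⁻¹) * (v w j - v w i) := by
      simp only [orient, s]
      split_ifs <;> field_simp <;> ring
    have p : ∀ j, 0 < s w j := fun j => by simp only [s]; split_ifs <;> positivity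
    rw [sign_eq_one_iff, e, mul_pos_iff_of_pos_left (mul_pos (mul_pos (p i) (p j)) (sub_pos.2
      (inv_lt_one_of_one_lt₀ (by
        nlinarith [Nat.cast_nonneg (α := ℝ) (v w i), Nat.cast_nonneg (α := ℝ) (v w j)])))), sub_pos, Nat.cast_lt]
    have := hv w i
    have := hv w j
    by_cases e : i = j
    · rw [e]; omega
    · have := Fin.val_ne_of_ne e
      omega
  have np : ∀ w, ((0, -1) : ℝ × ℝ) ∉ univ.image fun j => (s w j, s w j ^ 2) := fun w h => by
    obtain ⟨j, -, e⟩ := mem_image.1 h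
    have := congrArg Prod.snd e
    nlinarith [sq_nonneg (s w j)]
  let S : (Fin (m / 2) → Bool) → Conf k (m + 1) := fun w =>
    ⟨insert (0, -1) (univ.image fun j => (s w j, s w j ^ 2)), by
      rw [card_insert_of_notMem (np w), card_image_of_injective _ (si w)]; simp, by
      refine lt_of_le_of_lt (Nat.sInf_le ⟨{(0, -1)}, by simp, card_singleton _, ?_⟩) hk
      rw [sdiff_singleton_eq_erase, erase_insert (np w)]
      intro x hx h
      obtain ⟨j, -, rfl⟩ := mem_image.1 hx
      have := convexHull_min (fun y hy => ?_) (convex_halfSpace_gt (𝕜 := ℝ)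
        (f := fun z : ℝ × ℝ => z.2 - 2 * s w j * z.1) ⟨fun _ _ => by simp; ring,
          fun _ _ => by simp; ring⟩ (-s w j ^ 2)) h
      · simp only [Set.mem_ofPred_eq] at this
        linarith
      · obtain ⟨i, -, rfl⟩ := mem_image.1 hy.1
        have : s w i - s w j ≠ 0 := fun e => hy.2 (by simp [sub_eq_zero.1 e])
        simp only [Set.mem_ofPred_eq]
        nlinarith [sq_pos_of_ne_zero this]⟩
  choose φ hφ using fun S : Conf k (m + 1) =>
    (eqv k (m + 1)).eqvGen_iff.1 (Quot.eqvGen_exact (Quot.out_eq (Quot.mk _ S)).symm)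
  let e : ∀ q : Cls k (m + 1), q.out.1 ≃ Fin (m + 1) := fun q => equivFinOfCardEq q.out.2.1
  let T : Cls k (m + 1) × Fin (m + 1) → Set ℕ := fun u => {x | ∃ b ≠ u.2, x = {y | SignType.sign
    (orient ((e u.1).symm u.2) ((e u.1).symm y) ((e u.1).symm b)) = 1}.ncard}
  let F : (Fin (m / 2) → Bool) → Cls k (m + 1) × Fin (m + 1) := fun w =>
    (Quot.mk _ (S w), e _ (φ (S w) ⟨(0, -1), mem_insert_self _ _⟩))
  have hT : ∀ w, T (F w) = Set.range (v w) := fun w => by
    let ι : Fin m → Fin (m + 1) := fun i => e _ (φ (S w) ⟨(s w i, s w i ^ 2),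
      mem_insert_of_mem (mem_image_of_mem _ (mem_univ i))⟩)
    have ii : Function.Injective ι := fun i j h => si w (by simpa [ι] using h)
    have sj : ∀ b, b = (F w).2 ∨ ∃ j, ι j = b := fun b => by
      obtain ⟨⟨y, hy⟩, rfl⟩ := ((φ (S w)).trans (e _)).surjective b
      rcases mem_insert.1 hy with rfl | h
      · exact Or.inl rfl
      · obtain ⟨j, -, rfl⟩ := mem_image.1 h
        exact Or.inr ⟨j, rfl⟩
    have cn : ∀ j, {y | SignType.sign (orient ((e (F w).1).symm (F w).2) ((e (F w).1).symm y)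
        ((e (F w).1).symm (ι j))) = 1}.ncard = v w j := fun j => by
      have lt : v w j < m := by have := hv w j; omega
      refine Eq.trans ?_ (Fin.card_Iio ⟨_, lt⟩)
      rw [← Set.ncard_coe_finset, ← Set.ncard_image_of_injective _ ii]
      congr 1
      ext y
      rcases sj y with rfl | ⟨i, rfl⟩
      · simp [orient, ι, F]
        exact fun i _ _ h => by nlinarith [sq_nonneg (s w i)]
      · rw [ii.mem_set_image]
        simp only [ι, F, Equiv.symm_apply_apply, Set.mem_ofPred_eq, ← hφ, so, coe_Iio, Set.mem_Iio,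
          Fin.lt_def]
    ext x
    constructor
    · rintro ⟨b, hb, rfl⟩
      obtain ⟨j, rfl⟩ := (sj b).resolve_left hb
      exact ⟨j, (cn j).symm⟩
    · rintro ⟨j, rfl⟩
      refine ⟨ι j, fun h => np w (mem_image.2 ⟨j, mem_univ _, ?_⟩), (cn j).symm⟩
      simpa [ι, F] using h
  have key : ∀ w t, 2 * t.val + 1 ∈ Set.range (v w) ↔ w t = false := fun w t => by
    have := t.2
    constructor
    · rintro ⟨j, h⟩
      by_contra c
      have := hv w j
      have : j.val = 2 * t + 1 := by omega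
      simp only [v] at h
      rw [if_pos ⟨by omega, t, by simpa using c, by omega⟩] at h
      omega
    · refine fun c => ⟨⟨2 * t + 1, by omega⟩, if_neg ?_⟩
      rintro ⟨-, u, a, b⟩
      rw [show u = t from Fin.ext (by simp only at b; omega), c] at a
      exact Bool.false_ne_true a
  simpa [c] using Nat.card_le_card_of_injective F fun w w' h => funext fun t => by
    have := (key w t).symm.trans (by rw [← hT, h, hT] : _ ↔ _) |>.trans (key w' t)
    cases e : w t <;> cases e' : w' t <;> simp_all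

theorem result (k : ℕ) (hk : 2 ≤ k) :
    (fun n => Real.log (c k n)) =Θ[atTop] fun n => (n : ℝ) := by
  obtain ⟨C, hC⟩ := upper k
  have lo : ∀ n, 20 ≤ n → 2 ^ (n / 5) ≤ c k n := fun n hn => by
    obtain ⟨m, rfl⟩ := Nat.exists_eq_add_one_of_ne_zero (show n ≠ 0 by omega)
    have h1 : ∀ t, 4 * (t + 4) + 4 ≤ 2 ^ (t + 4) + 4 := fun t => by
      induction t with
      | zero => simp
      | succ t ih => rw [show t + 1 + 4 = t + 4 + 1 by ring, pow_succ]; omega
    have h2 := h1 (m / 4 - 4)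
    have h3 : 2 ^ ((m + 1) / 5) * 2 ^ (m / 4 + 1) ≤ 2 ^ (m / 2) := by
      rw [← pow_add]
      exact Nat.pow_le_pow_right two_pos (by omega)
    rw [show m / 4 - 4 + 4 = m / 4 by omega] at h2
    refine Nat.le_of_mul_le_mul_right (le_trans ?_ (h3.trans (lower hk m))) m.succ_pos
    exact Nat.mul_le_mul_left _ (by rw [pow_succ]; omega)
  refine ⟨.of_bound (Real.log C) ?_, .of_bound (10 / Real.log 2) ?_⟩ <;>
    filter_upwards [eventually_ge_atTop 20] with n hn <;>
    rw [Real.norm_natCast, Real.norm_of_nonneg (Real.log_natCast_nonneg _)]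
  · rw [mul_comm, ← Real.log_pow]
    exact Real.log_le_log (Nat.cast_pos.2 ((pow_pos two_pos _).trans_le (lo n hn)))
      (by exact_mod_cast (hC n (by omega)).2)
  · have := Real.log_le_log (by positivity)
      (show (2 : ℝ) ^ (n / 5) ≤ c k n by exact_mod_cast lo n hn)
    have l := Real.log_pos one_lt_two
    have q : (n : ℝ) ≤ 10 * (n / 5 : ℕ) := by exact_mod_cast (by omega : n ≤ 10 * (n / 5))
    rw [Real.log_pow] at this
    rw [div_mul_eq_mul_div, le_div_iff₀ l]
    nlinarith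

end Pool.Agent.Results.MP_6a769b_co.Linear
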